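import Pool.Agent.P.MP_fa5791_lc.TMain
import Pool.Agent.P.MP_fa5791_lc.TFin
import Pool.Agent.P.MP_fa5791_lc.TEnum

namespace Pool.Agent.Results.MP_fa5791_lc.Incomparable

open Pool.Agent.P.MP_fa5791_lc UniformSpace

theorem result (X : Type) [TopologicalSpace X] [Infinite X]
    (hX : ∃ (M : Type) (_ : MetricSpace M) (c : ℕ → M),
      IsCompMetric M c ∧ Nonempty (Completion M ≃ₜ X)) :
    ∃ (M N : Type) (_ : MetricSpace M) (_ : MetricSpace N) (c : ℕ → M) (e : ℕ → N),
      IsCompMetric M c ∧ IsCompMetric N e ∧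
      Nonempty (Completion M ≃ₜ X) ∧ Nonempty (Completion N ≃ₜ X) ∧
      (∀ f : Completion M → Completion N, Function.Injective f → IsOpenMap f →
        ¬ CompMap (fun n => (c n : Completion M)) (fun n => (e n : Completion N)) f) ∧
      (∀ g : Completion N → Completion M, Function.Injective g → IsOpenMap g →
        ¬ CompMap (fun n => (e n : Completion N)) (fun n => (c n : Completion M)) g) :=
  Two.main (fun _ _ _ _ hc _ _ hp => Two.caseA hc hp) X hX

/-! Side theorems: controls for the definitions. They are not part of the result. Lemmas come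
first, the controls are at the end of the file. -/

section Controls

open Pool.Agent.Lib.ComputableProp

theorem rec_congr {F G : (ℕ →. ℕ) → ℕ →. ℕ} (h : OracleRec F) (H : ∀ o n, F o n = G o n) :
    OracleRec G := by
  have e : F = G := funext fun o => funext fun n => H o n
  exact e ▸ h

theorem rec_of_partrec {f : ℕ →. ℕ} (hf : Nat.Partrec f) : OracleRec fun _ => f := by
  induction hf with
  | zero => exact OracleRec.cZero
  | succ => exact OracleRec.cSucc
  | left => exact OracleRec.cLeft
  | right => exact OracleRec.cRight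
  | pair _ _ ihf ihg =>
    refine rec_congr (OracleRec.cPair ihf ihg) fun o n => ?_
    simp [Seq.seq, Part.bind_map]
  | comp _ _ ihf ihg => exact OracleRec.cComp ihf ihg
  | prec _ _ ihf ihg => exact OracleRec.cPrec ihf ihg
  | rfind _ ihf => exact OracleRec.cRfind ihf

theorem rec_of_computable {f : ℕ → ℕ} (hf : Computable f) :
    OracleRec fun _ n => Part.some (f n) :=
  rec_of_partrec (Partrec.nat_iff.1 hf.partrec)

theorem of_words {g : ℕ × ℕ × ℕ → ℕ} (hg : Computable g) :
    ∃ F, OracleRec F ∧ ∀ p u : ℕ → ℕ, u 0 = 0 → (∀ m, u (m + 1) = Nat.pair (p m) (u m)) →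
      ∀ k m v, g (k, m, u m) = v + 1 → (∀ l < m, g (k, l, u l) = 0) →
        v ∈ F (fun n => Part.some (p n)) k := by
  have hid : OracleRec fun _ n => Part.some n := rec_of_computable Computable.id
  have hU := OracleRec.cPrec OracleRec.cZero (OracleRec.cPair
    (OracleRec.cComp OracleRec.cOracle (OracleRec.cComp OracleRec.cLeft OracleRec.cRight))
    (OracleRec.cComp OracleRec.cRight OracleRec.cRight))
  have hV := OracleRec.cComp (rec_of_computable
    (f := fun s => g ((Nat.unpair (Nat.unpair s).1).1, (Nat.unpair (Nat.unpair s).1).2,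
      (Nat.unpair s).2)) (by fun_prop)) (OracleRec.cPair hid hU)
  have hR := OracleRec.cRfind
    (OracleRec.cComp (rec_of_computable (f := fun v => 1 - v) (by fun_prop)) hV)
  refine ⟨_, OracleRec.cComp (rec_of_computable (f := fun v => v - 1) (by fun_prop))
    (OracleRec.cComp hV (OracleRec.cPair hid hR)), fun p u h0 hs k m v hv hl => ?_⟩
  have hu : ∀ m : ℕ, (Nat.rec (Part.some 0)
      (fun y IH => IH.bind fun i => Part.some (Nat.pair (p y) i)) m : Part ℕ) =
      Part.some (u m) := by
    intro m
    induction m with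
    | zero => rw [h0]; rfl
    | succ m ih =>
      change Part.bind _ _ = _
      rw [ih, Part.bind_some, hs]
  simp only [Part.bind_some, Part.map_some, Nat.unpair_pair, hu, Part.mem_bind_iff,
    Part.mem_map_iff, Part.mem_some_iff]
  refine ⟨v + 1, ⟨Nat.pair k m, ⟨m, Nat.mem_rfind.2 ⟨?_, fun {l} h => ?_⟩, rfl⟩, ?_⟩, rfl⟩
  · simp [hv]
  · simp [hl l h]
  · simp [hv]

/-- The word `p 0, ..., p (m - 1)` read off its code. -/
def word (m v : ℕ) : List ℕ :=
  ((List.range m).foldl
    (fun (s : List ℕ × ℕ) (_ : ℕ) => ((Nat.unpair s.2).1 :: s.1, (Nat.unpair s.2).2)) ([], v)).1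

theorem word_eq {p u : ℕ → ℕ} (hs : ∀ m, u (m + 1) = Nat.pair (p m) (u m)) (m : ℕ) :
    word m (u m) = (List.range m).map p := by
  have key : ∀ (l : List ℕ) (acc : List ℕ), (l.foldl
      (fun (s : List ℕ × ℕ) (_ : ℕ) => ((Nat.unpair s.2).1 :: s.1, (Nat.unpair s.2).2))
      (acc, u l.length)).1 = (List.range l.length).map p ++ acc := by
    intro l
    induction l with
    | nil => simp
    | cons a l ih =>
      intro acc
      simp only [List.foldl_cons, List.length_cons, hs, Nat.unpair_pair, ih, List.range_succ,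
        List.map_append, List.map_cons, List.map_nil, List.append_assoc, List.cons_append,
        List.nil_append]
  simpa [word] using key (List.range m) []

theorem to_words {F : (ℕ →. ℕ) → ℕ →. ℕ} (hF : OracleRec F) :
    ∃ g : ℕ × ℕ × ℕ → ℕ, Computable g ∧ ∀ p u : ℕ → ℕ,
      (∀ m, u (m + 1) = Nat.pair (p m) (u m)) → ∀ k, ∀ v ∈ F (fun n => Part.some (p n)) k,
        ∃ m, g (k, m, u m) = v + 1 ∧ ∀ l < m, g (k, l, u l) = 0 := by
  obtain ⟨code, hcode⟩ := Nat.Partrec.Code.exists_code.1 hF.partrec
  have hmem : ∀ σ k w, w ∈ code.eval (Encodable.encode (σ, k)) ↔ w ∈ F (orc σ) k := by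
    intro σ k w
    rw [hcode]
    simp only [Encodable.encodek, Part.coe_some, Part.bind_some, Part.mem_map_iff]
    simp
  let g : ℕ × ℕ × ℕ → ℕ := fun z => Encodable.encode (Nat.Partrec.Code.evaln
    (Nat.unpair z.2.1).2 code (Encodable.encode
      ((List.range (Nat.unpair z.2.1).1).map fun i => (word z.2.1 z.2.2).getD i 0, z.1)))
  refine ⟨g, by unfold g word; fun_prop, fun p u hs k v hv => ?_⟩
  have hg : ∀ m, g (k, m, u m) = Encodable.encode (Nat.Partrec.Code.evaln (Nat.unpair m).2 code
      (Encodable.encode ((List.range (Nat.unpair m).1).map p, k))) := by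
    intro m
    have e : ((List.range (Nat.unpair m).1).map fun i => (word m (u m)).getD i 0) =
        (List.range (Nat.unpair m).1).map p := by
      refine List.map_congr_left fun i hi => ?_
      have hi' : i < m := (List.mem_range.1 hi).trans_le (Nat.unpair_left_le m)
      simp [word_eq hs, hi']
    simp only [g, e]
  have hex : ∃ m, g (k, m, u m) ≠ 0 := by
    obtain ⟨L, hL⟩ := hF.compact _ k _ hv
    have h1 : v ∈ F (orc ((List.range L).map p)) k := by
      refine hF.mono ?_ k _ hL
      intro n w hw
      unfold restr at hw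
      split_ifs at hw with hn
      · simp only [Part.mem_some_iff] at hw
        simp [orc, hn, hw]
      · exact absurd hw (Part.notMem_none _)
    rw [← hmem, Nat.Partrec.Code.evaln_complete] at h1
    obtain ⟨s, hs0⟩ := h1
    refine ⟨Nat.pair L s, ?_⟩
    rw [hg, Nat.unpair_pair, Option.mem_def.1 hs0]
    exact Nat.succ_ne_zero _
  refine ⟨Nat.find hex, ?_, fun l hl => not_not.1 (Nat.find_min hex hl)⟩
  have h2 := Nat.find_spec hex
  rw [hg] at h2 ⊢
  cases h3 : Nat.Partrec.Code.evaln (Nat.unpair (Nat.find hex)).2 code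
      (Encodable.encode ((List.range (Nat.unpair (Nat.find hex)).1).map p, k)) with
  | none => exact absurd (by rw [h3]; rfl) h2
  | some w =>
    have h4 : w ∈ F (fun n => Part.some (p n)) k := by
      refine hF.mono ?_ k w ((hmem _ _ _).1 (Nat.Partrec.Code.evaln_sound h3))
      intro n w' hw'
      simp only [orc, Part.mem_ofOption, Option.mem_def] at hw'
      obtain ⟨hn, rfl⟩ := List.getElem?_eq_some_iff.1 hw'
      simp
    rw [Part.mem_unique h4 hv]
    rfl

theorem compMap_of_finite {Y Z : Type} [MetricSpace Y] [MetricSpace Z] [Finite Y] {c : ℕ → Y}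
    {e : ℕ → Z} (hc : IsCompMetric Y c) (he : Function.Surjective e) (f : Y → Z) :
    CompMap c e f := by
  obtain ⟨hs, a, ha, hd⟩ := hc
  have h1 : ∀ z : Y × Y, ∀ᶠ n : ℕ in Filter.atTop, z.1 ≠ z.2 → 3 / 2 ^ n < dist z.1 z.2 := by
    intro z
    by_cases h : z.1 = z.2
    · exact Filter.Eventually.of_forall fun n h' => absurd h h'
    · have h2 : Filter.Tendsto (fun n : ℕ => (3 : ℝ) / 2 ^ n) Filter.atTop (nhds 0) :=
        tendsto_const_nhds.div_atTop (tendsto_pow_atTop_atTop_of_one_lt one_lt_two)
      exact (h2.eventually (gt_mem_nhds (dist_pos.2 h))).mono fun n hn _ => hn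
  obtain ⟨n, hn⟩ := (Filter.eventually_all.2 h1).exists
  have hpos : (0 : ℝ) < 2 ^ n := by positivity
  choose r hr using hs
  choose j hj using fun y => he (f y)
  have htest : ∀ i y, a (i, r y, n) ≤ 1 ↔ c i = y := by
    intro i y
    have h3 := abs_le.1 (hd i (r y) n)
    rw [hr] at h3
    constructor
    · intro h
      by_contra hne
      have h4 := hn (c i, y) hne
      have h5 : (a (i, r y, n) : ℝ) / 2 ^ n ≤ 1 / 2 ^ n :=
        div_le_div_of_nonneg_right (by exact_mod_cast h) hpos.le
      have h6 : (3 : ℝ) / 2 ^ n = 3 * (1 / 2 ^ n) := by ring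
      have h7 : (0 : ℝ) < 1 / 2 ^ n := by positivity
      simp only at h4
      linarith [h3.2]
    · intro h
      rw [h, dist_self] at h3
      have h5 : (a (i, r y, n) : ℝ) / 2 ^ n ≤ 1 / 2 ^ n := by linarith [h3.1]
      exact_mod_cast (div_le_div_iff_of_pos_right hpos).1 h5
  have := Fintype.ofFinite Y
  let t : List (ℕ × ℕ) → ℕ → ℕ := fun l i =>
    l.foldr (fun z acc => cond (leb (a (i, z.1, n)) 1) z.2 acc) 0
  have ht : ∀ (i : ℕ) (l : List Y), c i ∈ l → t (l.map fun y => (r y, j y)) i = j (c i) := by
    intro i l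
    induction l with
    | nil => simp
    | cons y l ih =>
      intro h
      by_cases hy : c i = y
      · have : leb (a (i, r y, n)) 1 = true := (leb_iff _ _).2 ((htest i y).2 hy)
        simp only [t, List.map_cons, List.foldr_cons, this, cond_true, hy]
      · have : leb (a (i, r y, n)) 1 = false :=
          Bool.eq_false_iff.2 fun h' => hy ((htest i y).1 ((leb_iff _ _).1 h'))
        simp only [t, List.map_cons, List.foldr_cons, this, cond_false]
        exact ih ((List.mem_cons.1 h).resolve_left hy)
  have hcomp : Computable (t ((Finset.univ : Finset Y).toList.map fun y => (r y, j y))) := by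
    unfold t
    fun_prop
  refine ⟨_, OracleRec.cComp (rec_of_computable hcomp) (OracleRec.cComp OracleRec.cOracle
    (rec_of_computable (Computable.const n))), fun x p hp => ⟨fun _ => j x, fun k => ?_, fun k => ?_⟩⟩
  · have hx : c (p n) = x := by
      by_contra hne
      have h4 := hn (c (p n), x) hne
      have h6 : (3 : ℝ) / 2 ^ n = 3 * (1 / 2 ^ n) := by ring
      have h7 : (0 : ℝ) < 1 / 2 ^ n := by positivity
      simp only at h4
      linarith [hp n]
    simp only [Part.bind_some, Part.mem_some_iff]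
    rw [ht _ _ (by simp), hx]
  · rw [hj, dist_self]
    positivity

theorem compMetric_completion {M : Type} [MetricSpace M] {c : ℕ → M} (hM : IsCompMetric M c)
    [Finite (Completion M)] : IsCompMetric (Completion M) fun n => (c n : Completion M) := by
  obtain ⟨hs, a, ha, hd⟩ := hM
  refine ⟨fun y => ?_, a, ha, fun i j n => by simpa only [Completion.dist_eq] using hd i j n⟩
  have h1 : y ∈ closure (Set.range ((↑) : M → Completion M)) := Completion.denseRange_coe y
  rw [(Set.toFinite _).isClosed.closure_eq] at h1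
  obtain ⟨x, rfl⟩ := h1
  obtain ⟨i, rfl⟩ := hs x
  exact ⟨i, rfl⟩

theorem rec_subst {F G : (ℕ →. ℕ) → ℕ →. ℕ} (hF : OracleRec F) (hG : OracleRec G) :
    OracleRec fun o => G (F o) := by
  induction hG with
  | cZero => exact OracleRec.cZero
  | cSucc => exact OracleRec.cSucc
  | cLeft => exact OracleRec.cLeft
  | cRight => exact OracleRec.cRight
  | cOracle => exact hF
  | cPair _ _ h1 h2 => exact OracleRec.cPair h1 h2
  | cComp _ _ h1 h2 => exact OracleRec.cComp h1 h2
  | cPrec _ _ h1 h2 => exact OracleRec.cPrec h1 h2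
  | cRfind _ h1 => exact OracleRec.cRfind h1

/-! The controls. -/

/-- The form for homeomorphisms: neither `h` nor its inverse is computable. It contains the
negated form of the question. -/
theorem homeomorphisms (X : Type) [TopologicalSpace X] [Infinite X]
    (hX : ∃ (M : Type) (_ : MetricSpace M) (c : ℕ → M),
      IsCompMetric M c ∧ Nonempty (Completion M ≃ₜ X)) :
    ∃ (M N : Type) (_ : MetricSpace M) (_ : MetricSpace N) (c : ℕ → M) (e : ℕ → N),
      IsCompMetric M c ∧ IsCompMetric N e ∧
      Nonempty (Completion M ≃ₜ X) ∧ Nonempty (Completion N ≃ₜ X) ∧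
      ∀ h : Completion M ≃ₜ Completion N,
        ¬ CompMap (fun n => (c n : Completion M)) (fun n => (e n : Completion N)) h ∧
        ¬ CompMap (fun n => (e n : Completion N)) (fun n => (c n : Completion M)) h.symm := by
  obtain ⟨M, N, m, n, c, e, h1, h2, h3, h4, h5, h6⟩ := result X hX
  exact ⟨M, N, m, n, c, e, h1, h2, h3, h4, fun h =>
    ⟨h5 h h.injective h.isOpenMap, h6 h.symm h.symm.injective h.symm.isOpenMap⟩⟩

/-- The negated form of the question. -/
theorem negated_form (X : Type) [TopologicalSpace X] [Infinite X]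
    (hX : ∃ (M : Type) (_ : MetricSpace M) (c : ℕ → M),
      IsCompMetric M c ∧ Nonempty (Completion M ≃ₜ X)) :
    ∃ (M N : Type) (_ : MetricSpace M) (_ : MetricSpace N) (c : ℕ → M) (e : ℕ → N),
      IsCompMetric M c ∧ IsCompMetric N e ∧ Nonempty (Completion M ≃ₜ X) ∧
      Nonempty (Completion N ≃ₜ X) ∧ ∀ h : Completion M ≃ₜ Completion N,
        ¬ (CompMap (fun n => (c n : Completion M)) (fun n => (e n : Completion N)) h ∧
          CompMap (fun n => (e n : Completion N)) (fun n => (c n : Completion M)) h.symm) := by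
  obtain ⟨M, N, m, n, c, e, h1, h2, h3, h4, h5⟩ := homeomorphisms X hX
  exact ⟨M, N, m, n, c, e, h1, h2, h3, h4, fun h hh => (h5 h).1 hh.1⟩

/-- Constant maps onto a listed point are computable, so the maps excluded by the result are not
excluded for want of computable maps. -/
theorem const_case {Y Z : Type} [MetricSpace Y] [MetricSpace Z] (c : ℕ → Y) (e : ℕ → Z) (n : ℕ) :
    CompMap c e fun _ => e n :=
  ⟨_, rec_of_computable (Computable.const n), fun _ _ _ => ⟨fun _ => n, fun _ => Part.mem_some _,
    fun _ => by rw [dist_self]; positivity⟩⟩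

/-- `CompMap` is computability by a machine that reads longer and longer initial words of the
name: `u m` codes `p 0, ..., p (m - 1)`, the value `g (k, m, u m)` is `0` for no answer yet, and
the first other value is `q k + 1`. An oracle Turing machine run for `m` steps is such a `g`. -/
theorem compMap_iff {Y Z : Type} [MetricSpace Y] [MetricSpace Z] (c : ℕ → Y) (e : ℕ → Z)
    (f : Y → Z) :
    CompMap c e f ↔ ∃ g : ℕ × ℕ × ℕ → ℕ, Computable g ∧
      ∀ (x : Y) (p u : ℕ → ℕ), IsName c p x → u 0 = 0 →
        (∀ m, u (m + 1) = Nat.pair (p m) (u m)) → ∃ q : ℕ → ℕ,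
          (∀ k, ∃ m, g (k, m, u m) = q k + 1 ∧ ∀ l < m, g (k, l, u l) = 0) ∧
            IsName e q (f x) := by
  constructor
  · rintro ⟨F, hF, h⟩
    obtain ⟨g, hg, H⟩ := to_words hF
    refine ⟨g, hg, fun x p u hp _ hs => ?_⟩
    obtain ⟨q, hq, hq'⟩ := h x p hp
    exact ⟨q, fun k => H p u hs k _ (hq k), hq'⟩
  · rintro ⟨g, hg, h⟩
    obtain ⟨F, hF, H⟩ := of_words hg
    refine ⟨F, hF, fun x p hp => ?_⟩
    let u : ℕ → ℕ := fun m => Nat.rec 0 (fun y i => Nat.pair (p y) i) m
    obtain ⟨q, hq, hq'⟩ := h x p u hp rfl fun _ => rfl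
    refine ⟨q, fun k => ?_, hq'⟩
    obtain ⟨m, h1, h2⟩ := hq k
    exact H p u rfl (fun _ => rfl) k m _ h1 h2

/-- For finite spaces the conclusion fails: every homeomorphism between the completions of two
computable metric spaces is computable in both directions. -/
theorem finite_case (M N : Type) [MetricSpace M] [MetricSpace N] (c : ℕ → M) (e : ℕ → N)
    (hM : IsCompMetric M c) (hN : IsCompMetric N e) (hfin : ¬ Infinite (Completion M))
    (h : Completion M ≃ₜ Completion N) :
    CompMap (fun n => (c n : Completion M)) (fun n => (e n : Completion N)) h ∧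
      CompMap (fun n => (e n : Completion N)) (fun n => (c n : Completion M)) h.symm := by
  have h1 : Finite (Completion M) := not_infinite_iff_finite.1 hfin
  have h2 : Finite (Completion N) := Finite.of_equiv _ h.toEquiv
  exact ⟨compMap_of_finite (compMetric_completion hM) (compMetric_completion hN).1 _,
    compMap_of_finite (compMetric_completion hN) (compMetric_completion hM).1 _⟩

/-- The identity map is computable, for every list of points. -/
theorem id_case {Y : Type} [MetricSpace Y] (c : ℕ → Y) : CompMap c c fun x => x :=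
  ⟨_, OracleRec.cOracle, fun _ p hp => ⟨p, fun _ => Part.mem_some _, hp⟩⟩

/-- Computable maps are closed under composition. -/
theorem comp_case {Y Z W : Type} [MetricSpace Y] [MetricSpace Z] [MetricSpace W] (c : ℕ → Y)
    (e : ℕ → Z) (d : ℕ → W) (f : Y → Z) (g : Z → W) (hf : CompMap c e f) (hg : CompMap e d g) :
    CompMap c d fun x => g (f x) := by
  obtain ⟨F, hF, h1⟩ := hf
  obtain ⟨G, hG, h2⟩ := hg
  refine ⟨_, rec_subst hF hG, fun x p hp => ?_⟩
  obtain ⟨q, hq, hq'⟩ := h1 x p hp
  have e1 : F (fun n => Part.some (p n)) = fun n => Part.some (q n) :=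
    funext fun n => Part.eq_some_iff.2 (hq n)
  simpa only [e1] using h2 (f x) q hq'

/-- The discrete space of natural numbers meets the hypothesis of the result. -/
theorem naturals : ∃ (M : Type) (_ : MetricSpace M) (c : ℕ → M),
    IsCompMetric M c ∧ Nonempty (Completion M ≃ₜ ℕ) := by
  refine ⟨ℕ, inferInstance, fun n => n, ⟨fun n => ⟨n, rfl⟩,
    fun z => (z.1 - z.2.1 + (z.2.1 - z.1)) * 2 ^ z.2.2, by fun_prop, fun i j n => ?_⟩,
    ⟨(Completion.UniformCompletion.completeEquivSelf (α := ℕ)).toHomeomorph⟩⟩
  have h : dist i j = ((i - j + (j - i) : ℕ) : ℝ) := by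
    rw [Nat.dist_eq]
    rcases le_total i j with h | h
    · rw [Nat.sub_eq_zero_of_le h, zero_add, Nat.cast_sub h, abs_sub_comm,
        abs_of_nonneg (sub_nonneg.2 (by exact_mod_cast h))]
    · rw [Nat.sub_eq_zero_of_le h, add_zero, Nat.cast_sub h,
        abs_of_nonneg (sub_nonneg.2 (by exact_mod_cast h))]
  dsimp only
  rw [h, Nat.cast_mul, Nat.cast_pow, Nat.cast_ofNat, mul_div_assoc, div_self (by positivity),
    mul_one, sub_self, abs_zero]
  positivity

/-- The real line meets the hypothesis of the result. -/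
theorem real_line : ∃ (M : Type) (_ : MetricSpace M) (c : ℕ → M),
    IsCompMetric M c ∧ Nonempty (Completion M ≃ₜ ℝ) := by
  let A : ℕ → ℕ := fun n => (Nat.unpair n).1
  let B : ℕ → ℕ := fun n => (Nat.unpair (Nat.unpair n).2).1
  let D : ℕ → ℕ := fun n => (Nat.unpair (Nat.unpair n).2).2 + 1
  let S : ℕ → ℕ → ℕ := fun i j => A i * D j + B j * D i
  refine ⟨ℚ, inferInstance, fun n => ((A n : ℚ) - B n) / D n, ⟨fun x => ?_,
    fun z => (S z.1 z.2.1 - S z.2.1 z.1 + (S z.2.1 z.1 - S z.1 z.2.1)) * 2 ^ z.2.2 /
      (D z.1 * D z.2.1), by unfold S A B D; fun_prop, fun i j n => ?_⟩, ⟨?_⟩⟩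
  · refine ⟨Nat.pair x.num.toNat (Nat.pair (-x.num).toNat (x.den - 1)), ?_⟩
    have h1 : x.den - 1 + 1 = x.den := Nat.sub_add_cancel x.pos
    have h2 : ((x.num.toNat : ℤ) - ((-x.num).toNat : ℤ)) = x.num := Int.toNat_sub_toNat_neg _
    have h3 : ((x.num.toNat : ℚ) - ((-x.num).toNat : ℚ)) = x.num := by exact_mod_cast h2
    simp only [A, B, D, Nat.unpair_pair, h1, h3]
    exact Rat.num_div_den x
  · have hD : ∀ i, (0 : ℝ) < D i := fun i => by simp only [D]; positivity
    have hT : ((S i j - S j i + (S j i - S i j) : ℕ) : ℝ) = |(S i j : ℝ) - S j i| := by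
      rcases le_total (S i j) (S j i) with h | h
      · rw [Nat.sub_eq_zero_of_le h, zero_add, Nat.cast_sub h, abs_sub_comm,
          abs_of_nonneg (sub_nonneg.2 (by exact_mod_cast h))]
      · rw [Nat.sub_eq_zero_of_le h, add_zero, Nat.cast_sub h,
          abs_of_nonneg (sub_nonneg.2 (by exact_mod_cast h))]
    have hdist : dist (((A i : ℚ) - B i) / D i) (((A j : ℚ) - B j) / D j) =
        ((S i j - S j i + (S j i - S i j) : ℕ) : ℝ) / (D i * D j) := by
      rw [hT, Rat.dist_eq, ← abs_of_pos (mul_pos (hD i) (hD j)), ← abs_div]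
      congr 1
      have := (hD i).ne'
      have := (hD j).ne'
      simp only [S]
      push_cast
      field_simp
      ring
    rw [hdist]
    dsimp only
    generalize S i j - S j i + (S j i - S i j) = T
    have hP : (0 : ℝ) < (D i * D j : ℕ) := by push_cast; exact mul_pos (hD i) (hD j)
    have h1 : ((T * 2 ^ n / (D i * D j) : ℕ) : ℝ) ≤ (T * 2 ^ n : ℕ) / (D i * D j : ℕ) :=
      Nat.cast_div_le
    have h2 : ((T * 2 ^ n : ℕ) : ℝ) / (D i * D j : ℕ) < (T * 2 ^ n / (D i * D j) : ℕ) + 1 := by
      rw [← Nat.floor_div_eq_div (K := ℝ)]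
      exact Nat.lt_floor_add_one _
    have h3 : (T : ℝ) / (D i * D j) = ((T * 2 ^ n : ℕ) : ℝ) / (D i * D j : ℕ) / 2 ^ n := by
      push_cast
      field_simp
    rw [h3, ← sub_div, abs_div, abs_of_pos (show (0 : ℝ) < 2 ^ n by positivity)]
    exact div_le_div_of_nonneg_right (abs_le.2 ⟨by linarith, by linarith⟩) (by positivity)
  · let pkg : AbstractCompletion ℚ :=
      { space := ℝ
        coe := (↑)
        uniformStruct := inferInstance
        complete := inferInstance
        separation := inferInstance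
        isUniformInducing := Rat.isUniformEmbedding_coe_real.isUniformInducing
        dense := Rat.denseRange_cast }
    let e : Completion ℚ ≃ᵤ ℝ := (Completion.cPkg (α := ℚ)).compareEquiv pkg
    exact e.toHomeomorph

/-- Every computable metric space with a countably infinite discrete completion receives a
homeomorphism from the natural numbers that is computable in that direction. -/
theorem from_naturals (M : Type) [MetricSpace M] (c : ℕ → M) (hM : IsCompMetric M c)
    (φ : Completion M ≃ₜ ℕ) : ∃ h : ℕ ≃ₜ Completion M,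
      CompMap (fun n : ℕ => n) (fun n => (c n : Completion M)) h := by
  obtain ⟨κ, h, h1, h2⟩ := Enum.exists_enum (pres_of_comp hM) φ
  refine ⟨h, _, OracleRec.cComp (rec_of_computable h1) (OracleRec.cComp OracleRec.cOracle
    (rec_of_computable (Computable.const 1))), fun x p hp => ⟨fun _ => κ x, fun k => ?_,
      fun k => ?_⟩⟩
  · have h3 : p 1 = x := by
      by_contra hne
      have h4 : (1 : ℝ) ≤ dist (p 1) x := by
        rw [← Nat.dist_cast_real, Real.dist_eq]
        have h5 : ((p 1 : ℤ) - x) ≠ 0 := by omega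
        exact_mod_cast Int.one_le_abs h5
      have h6 := hp 1
      norm_num at h6
      linarith
    simp [h3]
  · rw [h2, dist_self]
    positivity

/-- A homeomorphism can be computable while its inverse is not: the result excludes more maps than
the computable homeomorphisms. -/
theorem one_direction_only : ∃ (M : Type) (_ : MetricSpace M) (c : ℕ → M), IsCompMetric M c ∧
    ∃ h : ℕ ≃ₜ Completion M, CompMap (fun n : ℕ => n) (fun n => (c n : Completion M)) h ∧
      ¬ CompMap (fun n => (c n : Completion M)) (fun n : ℕ => n) h.symm := by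
  obtain ⟨M, N, m, n, c, e, h1, h2, ⟨h3⟩, ⟨h4⟩, h5⟩ := homeomorphisms ℕ naturals
  obtain ⟨f, hf⟩ := from_naturals M c h1 h3
  obtain ⟨g, hg⟩ := from_naturals N e h2 h4
  exact ⟨M, m, c, h1, f, hf, fun h => (h5 (f.symm.trans g)).1 (comp_case _ _ _ f.symm g h hg)⟩

end Controls

end Pool.Agent.Results.MP_fa5791_lc.Incomparable
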